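import Pool.Agent.Helper3.AC.Defs
import Pool.Agent.Helper92.LA.C2

/-!
# Project AC, block P: the phases `hom (ga H α)` of an oval with positive affine curvature
-/

open MeasureTheory Real Set Filter Topology

set_option autoImplicit false

namespace Pool.Agent.Helper3.AC

open Pool.Agent.Helper22.AE
open Pool.Agent.Helper22.AC (ga)
open Pool.Agent.Helper22.OV (oph oan gam qq sg sg_sq sg_abs qq_pos qq_le qq_sq per_deriv per_bdd per_min dshift dcomb rho_gam
  oph_contDiff oph_d2 oph_d3 oph_d4 qq_hasDerivAt oan_hasDerivAt)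
open Pool.Agent.Helper22.LP (hom nr tr wr nr_eq tr_angle)
open Pool.Agent.Helper92.LA (HL WL)
open Pool.Agent.Helper60.LT (sl Cv Hom)

private theorem slice78 {γ : ℝ → ℝ} (hγ : Function.Periodic γ (2 * π)) (θ : ℝ) :
    sl (hom γ) θ = oph (fun t => γ (t + θ)) 0 true := by
  funext τ
  have hs : 0 < sqrt (1 + τ ^ 2) := sqrt_pos.2 (by positivity)
  have hs2 : sqrt (1 + τ ^ 2) ^ 2 = 1 + τ ^ 2 := sq_sqrt (by positivity)
  have hc : cos (arctan τ) = 1 / sqrt (1 + τ ^ 2) := Real.cos_arctan τ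
  have hsn : sin (arctan τ) = τ / sqrt (1 + τ ^ 2) := Real.sin_arctan τ
  have e1 : cos θ - τ * sin θ = sqrt (1 + τ ^ 2) * cos (θ + arctan τ) := by
    rw [Real.cos_add, hc, hsn]
    field_simp
  have e2 : sin θ + τ * cos θ = sqrt (1 + τ ^ 2) * sin (θ + arctan τ) := by
    rw [Real.sin_add, hc, hsn]
    field_simp
  have h1 : γ (tr (cos θ - τ * sin θ, sin θ + τ * cos θ)) = γ (θ + arctan τ) := tr_angle hs e1 e2 hγ
  have h2 : nr (cos θ - τ * sin θ, sin θ + τ * cos θ) = sqrt (1 + τ ^ 2) := by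
    rw [nr_eq]
    simp only
    congr 1
    have := Real.sin_sq_add_cos_sq θ
    linear_combination (1 + τ ^ 2) * this
  unfold sl hom oph oan
  rw [h1, h2]
  simp only [if_true, Nat.cast_zero, zero_mul, zero_add]
  rw [add_comm θ]

/-- fifth derivative -/
private theorem oph_d5 {γ : ℝ → ℝ} (hγ : ContDiff ℝ 5 γ) (j : ℕ) (s : Bool) (x : ℝ) :
    deriv (deriv (deriv (deriv (deriv (oph γ j s))))) x =
      -(7 * x) * qq x ^ 9 * (deriv (deriv (rho γ)) (oan j s x) - 8 * x * sg s * deriv (rho γ) (oan j s x) +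
          (12 * x ^ 2 - 3) * rho γ (oan j s x)) +
        qq x ^ 7 * (sg s * qq x ^ 2 * deriv (deriv (deriv (rho γ))) (oan j s x) - 8 * sg s * deriv (rho γ) (oan j s x) -
          8 * x * qq x ^ 2 * deriv (deriv (rho γ)) (oan j s x) + 24 * x * rho γ (oan j s x) +
          (12 * x ^ 2 - 3) * (sg s * qq x ^ 2) * deriv (rho γ) (oan j s x)) := by
  have h4γ : ContDiff ℝ 4 γ := hγ.of_le (by norm_num)
  have hd1 : ContDiff ℝ 4 (deriv γ) := ((contDiff_succ_iff_deriv (n := 4)).1 hγ).2.2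
  have hd2 : ContDiff ℝ 3 (deriv (deriv γ)) := ((contDiff_succ_iff_deriv (n := 3)).1 hd1).2.2
  have hg : ContDiff ℝ 3 (rho γ) := (hγ.of_le (by norm_num)).add hd2
  have hgd : Differentiable ℝ (rho γ) := hg.differentiable (by norm_num)
  have hg1 : ContDiff ℝ 2 (deriv (rho γ)) := ((contDiff_succ_iff_deriv (n := 2)).1 hg).2.2
  have hgd1 : Differentiable ℝ (deriv (rho γ)) := hg1.differentiable (by norm_num)
  have hg2 : ContDiff ℝ 1 (deriv (deriv (rho γ))) := ((contDiff_succ_iff_deriv (n := 1)).1 hg1).2.2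
  have hgd2 : Differentiable ℝ (deriv (deriv (rho γ))) := hg2.differentiable (by norm_num)
  rw [oph_d4 h4γ]
  have h1 := (hgd (oan j s x)).hasDerivAt.comp x (oan_hasDerivAt j s x)
  have h2 := (hgd1 (oan j s x)).hasDerivAt.comp x (oan_hasDerivAt j s x)
  have h3 := (hgd2 (oan j s x)).hasDerivAt.comp x (oan_hasDerivAt j s x)
  have h4 : HasDerivAt (fun x : ℝ => 8 * x * sg s) (8 * sg s) x := by
    have := ((hasDerivAt_id x).const_mul 8).mul_const (sg s)
    simpa using this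
  have h5 : HasDerivAt (fun x : ℝ => 12 * x ^ 2 - 3) (24 * x) x := by
    have := ((hasDerivAt_pow 2 x).const_mul 12).sub_const 3
    refine this.congr_deriv ?_
    push_cast
    ring
  have h6 := (h3.sub (h4.mul h2)).add (h5.mul h1)
  have h7 := ((qq_hasDerivAt x).pow 7).mul h6
  have h8 : HasDerivAt (fun x => qq x ^ 7 * (deriv (deriv (rho γ)) (oan j s x) -
      8 * x * sg s * deriv (rho γ) (oan j s x) + (12 * x ^ 2 - 3) * rho γ (oan j s x)))
      (((7 : ℕ) : ℝ) * qq x ^ (7 - 1) * (-(x * qq x ^ 3)) *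
          (deriv (deriv (rho γ)) (oan j s x) - 8 * x * sg s * deriv (rho γ) (oan j s x) +
            (12 * x ^ 2 - 3) * rho γ (oan j s x)) +
        qq x ^ 7 * (deriv (deriv (deriv (rho γ))) (oan j s x) * (sg s * qq x ^ 2) -
          (8 * sg s * deriv (rho γ) (oan j s x) + 8 * x * sg s * (deriv (deriv (rho γ)) (oan j s x) * (sg s * qq x ^ 2))) +
          (24 * x * rho γ (oan j s x) + (12 * x ^ 2 - 3) * (deriv (rho γ) (oan j s x) * (sg s * qq x ^ 2))))) x := h7
  rw [h8.deriv]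
  have h9 := sg_sq s
  push_cast
  linear_combination (-(8 * x * qq x ^ 9 * deriv (deriv (rho γ)) (oan j s x))) * h9

private theorem core78 {H : ℝ → ℝ} (h6 : ContDiff ℝ 6 H) {q M : ℝ} (hM : 1 ≤ M)
    (b0 : ∀ x, |rho H x| ≤ M) (b1 : ∀ x, |deriv (rho H) x| ≤ M) (b2 : ∀ x, |deriv (deriv (rho H)) x| ≤ M)
    (b3 : ∀ x, |deriv (deriv (deriv (rho H))) x| ≤ M) (b4 : ∀ x, |deriv (deriv (deriv (deriv (rho H)))) x| ≤ M)
    (hlo : ∀ x, q ≤ 9 * rho H x ^ 2 + 4 * deriv (rho H) x ^ 2 - 3 * rho H x * deriv (deriv (rho H)) x)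
    {α : ℝ} (hα1 : |α| ≤ 1) (hα2 : |α| ≤ q / (192 * M ^ 2)) :
    ContDiff ℝ 5 (oph (gam H α 0) 0 true) ∧
      (∀ x, |x| ≤ 1 → |deriv (deriv (deriv (deriv (deriv (oph (gam H α 0) 0 true))))) x| ≤ 400 * M) ∧
      ∃ a b d : ℝ, deriv (deriv (oph (gam H α 0) 0 true)) 0 = a ∧ deriv (deriv (deriv (oph (gam H α 0) 0 true))) 0 = b ∧
        deriv (deriv (deriv (deriv (oph (gam H α 0) 0 true)))) 0 = d - 3 * a ∧ |a| ≤ 2 * M ∧
        q / 2 ≤ 9 * a ^ 2 + 4 * b ^ 2 - 3 * a * d := by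
  obtain ⟨r, hr⟩ : ∃ r : ℝ → ℝ, r = rho H := ⟨_, rfl⟩
  rw [← hr] at b0 b1 b2 b3 b4 hlo
  have h5 : ContDiff ℝ 5 H := h6.of_le (by norm_num)
  have k1 : ContDiff ℝ 5 (deriv H) := ((contDiff_succ_iff_deriv (n := 5)).1 h6).2.2
  have k2 : ContDiff ℝ 4 (deriv (deriv H)) := ((contDiff_succ_iff_deriv (n := 4)).1 k1).2.2
  have hr4 : ContDiff ℝ 4 r := by
    rw [hr]
    exact (h6.of_le (by norm_num)).add k2
  have hr3 : ContDiff ℝ 3 (deriv r) := ((contDiff_succ_iff_deriv (n := 3)).1 hr4).2.2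
  have hr2 : ContDiff ℝ 2 (deriv (deriv r)) := ((contDiff_succ_iff_deriv (n := 2)).1 hr3).2.2
  have hcos1 : |cos α| ≤ 1 := Real.abs_cos_le_one α
  have hsin1 : |sin α| ≤ 1 := Real.abs_sin_le_one α
  have hsin2 : |sin α| ≤ |α| := Real.abs_sin_le_abs
  have hcos2 : |cos α - 1| ≤ |α| := by
    have h := Real.one_sub_sq_div_two_le_cos (x := α)
    have h1 := Real.cos_le_one α
    have h2 : α ^ 2 ≤ |α| := by
      rw [← sq_abs]
      nlinarith [abs_nonneg α]
    have h3 := abs_nonneg α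
    rw [abs_le]
    constructor
    · nlinarith
    · linarith
  have hg5 : ContDiff ℝ 5 (gam H α 0) := by
    have e1 : gam H α 0 = fun t => H (t + α) * cos α - deriv H (t + α) * sin α + 0 * cos α := rfl
    rw [e1]
    have ha : ContDiff ℝ 5 (fun t : ℝ => t + α) := by fun_prop
    exact (((h5.comp ha).mul contDiff_const).sub ((k1.comp ha).mul contDiff_const)).add contDiff_const
  -- `g = rho γ` and its derivatives
  have eg := rho_gam h5 α 0
  rw [← hr] at eg
  have eg1 : deriv (rho (gam H α 0)) = fun t => deriv r (t + α) * cos α - deriv (deriv r) (t + α) * sin α := by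
    rw [eg]
    exact dcomb (hr4.of_le (by norm_num)) α _ _ _
  have eg2 : deriv (deriv (rho (gam H α 0))) = fun t => deriv (deriv r) (t + α) * cos α -
      deriv (deriv (deriv r)) (t + α) * sin α := by
    rw [eg1]
    have := dcomb (hr3.of_le (by norm_num)) α (cos α) (sin α) 0
    simpa using this
  have eg3 : deriv (deriv (deriv (rho (gam H α 0)))) = fun t => deriv (deriv (deriv r)) (t + α) * cos α -
      deriv (deriv (deriv (deriv r))) (t + α) * sin α := by
    rw [eg2]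
    have := dcomb hr2 α (cos α) (sin α) 0
    simpa using this
  have hab : ∀ a b : ℝ, |a| ≤ M → |b| ≤ M → |a * cos α - b * sin α| ≤ 2 * M := by
    intro a b ha hb
    have h1 : |a * cos α| ≤ M := by
      rw [abs_mul]
      calc |a| * |cos α| ≤ M * 1 := mul_le_mul ha hcos1 (abs_nonneg _) (by linarith)
        _ = M := mul_one M
    have h2 : |b * sin α| ≤ M := by
      rw [abs_mul]
      calc |b| * |sin α| ≤ M * 1 := mul_le_mul hb hsin1 (abs_nonneg _) (by linarith)
        _ = M := mul_one M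
    have := abs_sub (a * cos α) (b * sin α)
    linarith
  have hdf : ∀ a b : ℝ, |a| ≤ M → |b| ≤ M → |(a * cos α - b * sin α) - a| ≤ 2 * M * |α| := by
    intro a b ha hb
    have h1 : |a * (cos α - 1)| ≤ M * |α| := by
      rw [abs_mul]
      exact mul_le_mul ha hcos2 (abs_nonneg _) (by linarith)
    have h2 : |b * sin α| ≤ M * |α| := by
      rw [abs_mul]
      exact mul_le_mul hb hsin2 (abs_nonneg _) (by linarith)
    have h3 := abs_sub (a * (cos α - 1)) (b * sin α)
    have h4 : (a * cos α - b * sin α) - a = a * (cos α - 1) - b * sin α := by ring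
    rw [h4]
    linarith
  have g0 : ∀ t, |rho (gam H α 0) t| ≤ 2 * M := by
    intro t
    rw [eg]
    have h1 := hab _ _ (b0 (t + α)) (b1 (t + α))
    simpa using h1
  have g1 : ∀ t, |deriv (rho (gam H α 0)) t| ≤ 2 * M := by
    intro t
    rw [eg1]
    exact hab _ _ (b1 _) (b2 _)
  have g2 : ∀ t, |deriv (deriv (rho (gam H α 0))) t| ≤ 2 * M := by
    intro t
    rw [eg2]
    exact hab _ _ (b2 _) (b3 _)
  have g3 : ∀ t, |deriv (deriv (deriv (rho (gam H α 0)))) t| ≤ 2 * M := by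
    intro t
    rw [eg3]
    exact hab _ _ (b3 _) (b4 _)
  refine ⟨oph_contDiff hg5 0 true, ?_, ?_⟩
  · intro x hx
    have hx2 : x ^ 2 ≤ 1 := by
      rw [← sq_abs]
      exact pow_le_one₀ (abs_nonneg _) hx
    have hx0 : (0 : ℝ) ≤ x ^ 2 := sq_nonneg x
    have qn : ∀ n : ℕ, qq x ^ n ≤ 1 := fun n => pow_le_one₀ (qq_pos x).le (qq_le x)
    have qa : ∀ n : ℕ, |qq x ^ n| ≤ 1 := fun n => by
      rw [abs_of_nonneg (pow_nonneg (qq_pos x).le n)]
      exact qn n
    have mb : ∀ (a b A B : ℝ), |a| ≤ A → |b| ≤ B → |a * b| ≤ A * B := by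
      intro a b A B ha hb
      rw [abs_mul]
      exact mul_le_mul ha hb (abs_nonneg _) ((abs_nonneg _).trans ha)
    rw [oph_d5 hg5]
    obtain ⟨R0, hR0⟩ : ∃ R0, R0 = rho (gam H α 0) (oan 0 true x) := ⟨_, rfl⟩
    obtain ⟨R1, hR1⟩ : ∃ R1, R1 = deriv (rho (gam H α 0)) (oan 0 true x) := ⟨_, rfl⟩
    obtain ⟨R2, hR2⟩ : ∃ R2, R2 = deriv (deriv (rho (gam H α 0))) (oan 0 true x) := ⟨_, rfl⟩
    obtain ⟨R3, hR3⟩ : ∃ R3, R3 = deriv (deriv (deriv (rho (gam H α 0)))) (oan 0 true x) := ⟨_, rfl⟩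
    have G0 : |R0| ≤ 2 * M := by rw [hR0]; exact g0 _
    have G1 : |R1| ≤ 2 * M := by rw [hR1]; exact g1 _
    have G2 : |R2| ≤ 2 * M := by rw [hR2]; exact g2 _
    have G3 : |R3| ≤ 2 * M := by rw [hR3]; exact g3 _
    rw [← hR0, ← hR1, ← hR2, ← hR3]
    have hsg : |sg true| ≤ 1 := (sg_abs true).le
    have h12 : |12 * x ^ 2 - 3| ≤ 9 := by
      rw [abs_le]
      constructor <;> linarith
    have h8x : |8 * x * sg true| ≤ 8 := by
      have h1 := mb (8 * x) (sg true) 8 1 (by rw [abs_mul, abs_of_pos (by norm_num : (0 : ℝ) < 8)]; linarith) hsg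
      linarith
    -- the bracket `E`
    have hE : |R2 - 8 * x * sg true * R1 + (12 * x ^ 2 - 3) * R0| ≤ 36 * M := by
      have h1 := mb _ _ _ _ h8x G1
      have h2 := mb _ _ _ _ h12 G0
      have h3 := abs_sub R2 (8 * x * sg true * R1)
      have h4 := abs_add_le (R2 - 8 * x * sg true * R1) ((12 * x ^ 2 - 3) * R0)
      linarith
    have hA : |-(7 * x) * qq x ^ 9 * (R2 - 8 * x * sg true * R1 + (12 * x ^ 2 - 3) * R0)| ≤ 252 * M := by
      have h1 : |-(7 * x)| ≤ 7 := by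
        rw [abs_neg, abs_mul, abs_of_pos (by norm_num : (0 : ℝ) < 7)]
        linarith
      have h2 := mb _ _ _ _ (mb _ _ _ _ h1 (qa 9)) hE
      linarith
    have hsq : |sg true * qq x ^ 2| ≤ 1 := by
      have := mb _ _ _ _ hsg (qa 2)
      linarith
    have hB : |qq x ^ 7 * (sg true * qq x ^ 2 * R3 - 8 * sg true * R1 - 8 * x * qq x ^ 2 * R2 + 24 * x * R0 +
        (12 * x ^ 2 - 3) * (sg true * qq x ^ 2) * R1)| ≤ 100 * M := by
      have t1 := mb _ _ _ _ hsq G3
      have t2 : |8 * sg true * R1| ≤ 16 * M := by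
        have h1 : |8 * sg true| ≤ 8 := by
          rw [abs_mul, abs_of_pos (by norm_num : (0 : ℝ) < 8)]
          linarith
        have := mb _ _ _ _ h1 G1
        linarith
      have t3 : |8 * x * qq x ^ 2 * R2| ≤ 16 * M := by
        have h1 : |8 * x| ≤ 8 := by
          rw [abs_mul, abs_of_pos (by norm_num : (0 : ℝ) < 8)]
          linarith
        have := mb _ _ _ _ (mb _ _ _ _ h1 (qa 2)) G2
        linarith
      have t4 : |24 * x * R0| ≤ 48 * M := by
        have h1 : |24 * x| ≤ 24 := by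
          rw [abs_mul, abs_of_pos (by norm_num : (0 : ℝ) < 24)]
          linarith
        have := mb _ _ _ _ h1 G0
        linarith
      have t5 := mb _ _ _ _ (mb _ _ _ _ h12 hsq) G1
      have s1 := abs_sub (sg true * qq x ^ 2 * R3) (8 * sg true * R1)
      have s2 := abs_sub (sg true * qq x ^ 2 * R3 - 8 * sg true * R1) (8 * x * qq x ^ 2 * R2)
      have s3 := abs_add_le (sg true * qq x ^ 2 * R3 - 8 * sg true * R1 - 8 * x * qq x ^ 2 * R2) (24 * x * R0)
      have s4 := abs_add_le (sg true * qq x ^ 2 * R3 - 8 * sg true * R1 - 8 * x * qq x ^ 2 * R2 + 24 * x * R0)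
        ((12 * x ^ 2 - 3) * (sg true * qq x ^ 2) * R1)
      have s5 : |sg true * qq x ^ 2 * R3 - 8 * sg true * R1 - 8 * x * qq x ^ 2 * R2 + 24 * x * R0 +
        (12 * x ^ 2 - 3) * (sg true * qq x ^ 2) * R1| ≤ 100 * M := by linarith
      have := mb _ _ _ _ (qa 7) s5
      linarith
    have := abs_add_le (-(7 * x) * qq x ^ 9 * (R2 - 8 * x * sg true * R1 + (12 * x ^ 2 - 3) * R0))
      (qq x ^ 7 * (sg true * qq x ^ 2 * R3 - 8 * sg true * R1 - 8 * x * qq x ^ 2 * R2 + 24 * x * R0 +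
        (12 * x ^ 2 - 3) * (sg true * qq x ^ 2) * R1))
    linarith
  · have hq0 : qq 0 = 1 := by
      unfold qq
      simp
    have ho : oan 0 true 0 = 0 := by
      unfold oan
      simp
    have hsgt : sg true = 1 := by
      unfold sg
      simp
    refine ⟨rho (gam H α 0) 0, deriv (rho (gam H α 0)) 0, deriv (deriv (rho (gam H α 0))) 0, ?_, ?_, ?_, g0 0, ?_⟩
    · rw [oph_d2 (hg5.of_le (by norm_num))]
      simp only
      rw [hq0, ho]
      ring
    · rw [oph_d3 (hg5.of_le (by norm_num))]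
      simp only
      rw [hq0, ho, hsgt]
      ring
    · rw [oph_d4 (hg5.of_le (by norm_num))]
      simp only
      rw [hq0, ho, hsgt]
      ring
    · have G0 := g0 0
      have G1 := g1 0
      have G2 := g2 0
      have D0 : |rho (gam H α 0) 0 - r (0 + α)| ≤ 2 * M * |α| := by
        rw [eg]
        have := hdf _ _ (b0 (0 + α)) (b1 (0 + α))
        simpa using this
      have D1 : |deriv (rho (gam H α 0)) 0 - deriv r (0 + α)| ≤ 2 * M * |α| := by
        rw [eg1]
        exact hdf _ _ (b1 (0 + α)) (b2 (0 + α))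
      have D2 : |deriv (deriv (rho (gam H α 0))) 0 - deriv (deriv r) (0 + α)| ≤ 2 * M * |α| := by
        rw [eg2]
        exact hdf _ _ (b2 (0 + α)) (b3 (0 + α))
      have B0 := b0 (0 + α)
      have B1 := b1 (0 + α)
      have B2 := b2 (0 + α)
      have hl := hlo (0 + α)
      generalize rho (gam H α 0) 0 = a at *
      generalize deriv (rho (gam H α 0)) 0 = b at *
      generalize deriv (deriv (rho (gam H α 0))) 0 = d at *
      generalize r (0 + α) = u at *
      generalize deriv r (0 + α) = v at *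
      generalize deriv (deriv r) (0 + α) = w at *
      have hα0 := abs_nonneg α
      have mb : ∀ (a b A B : ℝ), |a| ≤ A → |b| ≤ B → |a * b| ≤ A * B := by
        intro a b A B ha hb
        rw [abs_mul]
        exact mul_le_mul ha hb (abs_nonneg _) ((abs_nonneg _).trans ha)
      have s1 : |(a - u) * (a + u)| ≤ (2 * M * |α|) * (3 * M) := mb _ _ _ _ D0 (by
        have := abs_add_le a u
        linarith)
      have s2 : |(b - v) * (b + v)| ≤ (2 * M * |α|) * (3 * M) := mb _ _ _ _ D1 (by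
        have := abs_add_le b v
        linarith)
      have s3 : |(a - u) * d| ≤ (2 * M * |α|) * (2 * M) := mb _ _ _ _ D0 G2
      have s4 : |u * (d - w)| ≤ M * (2 * M * |α|) := mb _ _ _ _ B0 D2
      have h192 : 192 * M ^ 2 * |α| ≤ q := by
        have h1 := mul_le_mul_of_nonneg_left hα2 (by positivity : (0 : ℝ) ≤ 192 * M ^ 2)
        rwa [mul_div_cancel₀ _ (by positivity : (192 : ℝ) * M ^ 2 ≠ 0)] at h1
      have t1 := neg_le_of_abs_le s1
      have t2 := neg_le_of_abs_le s2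
      have t3 := le_of_abs_le s3
      have t4 := le_of_abs_le s4
      have e : 9 * a ^ 2 + 4 * b ^ 2 - 3 * a * d = (9 * u ^ 2 + 4 * v ^ 2 - 3 * u * w) + 9 * ((a - u) * (a + u)) +
          4 * ((b - v) * (b + v)) - 3 * ((a - u) * d) - 3 * (u * (d - w)) := by ring
      rw [e]
      have e2 : (2 * M * |α|) * (3 * M) = 6 * (M ^ 2 * |α|) := by ring
      have e3 : (2 * M * |α|) * (2 * M) = 4 * (M ^ 2 * |α|) := by ring
      have e4 : M * (2 * M * |α|) = 2 * (M ^ 2 * |α|) := by ring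
      rw [e2] at t1 t2
      rw [e3] at t3
      rw [e4] at t4
      have e5 : 192 * M ^ 2 * |α| = 192 * (M ^ 2 * |α|) := by ring
      rw [e5] at h192
      linarith

private theorem cv_mono78 {c₁ c₁' B B' : ℝ} {p : ℝ → ℝ} (h : Cv c₁ B p) (hc : c₁' ≤ c₁) (hB : B ≤ B') : Cv c₁' B' p :=
  ⟨h.sm, fun τ hτ => hc.trans (h.lo τ hτ), fun τ hτ => (h.d2 τ hτ).trans hB, fun τ hτ => (h.d3 τ hτ).trans hB,
    fun τ hτ => (h.d4 τ hτ).trans hB⟩

/-- the family of phases and weights of an oval with positive affine curvature -/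
theorem fam_aff {H : ℝ → ℝ} (hH : IsSupp H) (h6 : ContDiff ℝ 6 H)
    (ha : ∀ t, 0 < 9 * rho H t ^ 2 + 4 * deriv (rho H) t ^ 2 - 3 * rho H t * deriv (deriv (rho H)) t) :
    ∃ α₀ c₁ B : ℝ, 0 < α₀ ∧ α₀ < π / 2 ∧ 0 < c₁ ∧ c₁ ≤ 1 ∧ 1 ≤ B ∧
      (Continuous fun q : ℝ × (ℝ × ℝ) => Pool.Agent.Helper22.LP.hom (ga H q.1) q.2) ∧
      ∀ α ∈ Icc (-α₀) α₀, HA c₁ B (Pool.Agent.Helper22.LP.hom (ga H α)) ∧ HL B (Pool.Agent.Helper22.LP.hom (ga H α)) ∧
        WL B (wr H α) ∧ WL B (fun _ => 1) := by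
  obtain ⟨α₀, c₁, B, hα₀, hα₀', hc₁, hc₁', hB, hcont, hfam⟩ := Pool.Agent.Helper92.LA.fam hH (h6.of_le (by norm_num))
  obtain ⟨r, hr⟩ : ∃ r : ℝ → ℝ, r = rho H := ⟨_, rfl⟩
  have k1 : ContDiff ℝ 5 (deriv H) := ((contDiff_succ_iff_deriv (n := 5)).1 h6).2.2
  have k2 : ContDiff ℝ 4 (deriv (deriv H)) := ((contDiff_succ_iff_deriv (n := 4)).1 k1).2.2
  have hr4 : ContDiff ℝ 4 r := by
    rw [hr]
    exact (h6.of_le (by norm_num)).add k2
  have hr3 : ContDiff ℝ 3 (deriv r) := ((contDiff_succ_iff_deriv (n := 3)).1 hr4).2.2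
  have hr2 : ContDiff ℝ 2 (deriv (deriv r)) := ((contDiff_succ_iff_deriv (n := 2)).1 hr3).2.2
  have hr1 : ContDiff ℝ 1 (deriv (deriv (deriv r))) := ((contDiff_succ_iff_deriv (n := 1)).1 hr2).2.2
  have hr0 : Continuous (deriv (deriv (deriv (deriv r)))) := hr1.continuous_deriv le_rfl
  have hrp : Function.Periodic r (2 * π) := by
    have hp2 := per_deriv (per_deriv hH.per)
    intro x
    have e1 := hH.per x
    have e2 := hp2 x
    simp only [hr, rho, e1, e2]
  rw [← hr] at ha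
  obtain ⟨q, hq, hqr⟩ := per_min (f := fun t => 9 * r t ^ 2 + 4 * deriv r t ^ 2 - 3 * r t * deriv (deriv r) t)
    (by
      intro x
      have e1 := hrp x
      have e2 := per_deriv hrp x
      have e3 := per_deriv (per_deriv hrp) x
      simp only [e1, e2, e3])
    (by
      have c0 := hr4.continuous
      have c1 := hr3.continuous
      have c2 := hr2.continuous
      fun_prop) ha
  obtain ⟨M0, hM00, hM0⟩ := per_bdd hrp hr4.continuous
  obtain ⟨M1, hM10, hM1⟩ := per_bdd (per_deriv hrp) hr3.continuous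
  obtain ⟨M2, hM20, hM2⟩ := per_bdd (per_deriv (per_deriv hrp)) hr2.continuous
  obtain ⟨M3, hM30, hM3⟩ := per_bdd (per_deriv (per_deriv (per_deriv hrp))) hr1.continuous
  obtain ⟨M4, hM40, hM4⟩ := per_bdd (per_deriv (per_deriv (per_deriv (per_deriv hrp)))) hr0
  obtain ⟨M, hMd⟩ : ∃ M : ℝ, M = M0 + M1 + M2 + M3 + M4 + 1 := ⟨_, rfl⟩
  have hM' : 1 ≤ M := by linarith
  have hgap : ∀ α, Function.Periodic (ga H α) (2 * π) := by
    intro α x
    unfold ga
    have e1 := hH.per (x + α)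
    have e2 := per_deriv hH.per (x + α)
    have e3 : x + 2 * π + α = x + α + 2 * π := by ring
    rw [e3, e1, e2]
  have hBB : B ≤ B + 400 * M := by linarith
  refine ⟨min α₀ (min 1 (q / (192 * M ^ 2))), min c₁ (q / (288 * M ^ 2)), B + 400 * M,
    lt_min hα₀ (lt_min one_pos (by positivity)), (min_le_left _ _).trans_lt hα₀', lt_min hc₁ (by positivity),
    (min_le_left _ _).trans hc₁', by linarith, hcont, ?_⟩
  intro α hα
  have hα' : |α| ≤ min α₀ (min 1 (q / (192 * M ^ 2))) := abs_le.2 hα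
  have hα0 : α ∈ Icc (-α₀) α₀ := abs_le.1 (hα'.trans (min_le_left _ _))
  have hα1 : |α| ≤ 1 := hα'.trans ((min_le_right _ _).trans (min_le_left _ _))
  have hα2 : |α| ≤ q / (192 * M ^ 2) := hα'.trans ((min_le_right _ _).trans (min_le_right _ _))
  obtain ⟨f1, f2, f3, f4⟩ := hfam α hα0
  -- the slices
  have hsl : ∀ θ, ContDiff ℝ 5 (sl (hom (ga H α)) θ) ∧
      (∀ x, |x| ≤ 1 → |deriv (deriv (deriv (deriv (deriv (sl (hom (ga H α)) θ))))) x| ≤ 400 * M) ∧
      ∃ a b d : ℝ, deriv (deriv (sl (hom (ga H α)) θ)) 0 = a ∧ deriv (deriv (deriv (sl (hom (ga H α)) θ))) 0 = b ∧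
        deriv (deriv (deriv (deriv (sl (hom (ga H α)) θ)))) 0 = d - 3 * a ∧ |a| ≤ 2 * M ∧
        q / 2 ≤ 9 * a ^ 2 + 4 * b ^ 2 - 3 * a * d := by
    intro θ
    obtain ⟨G, hG⟩ : ∃ G : ℝ → ℝ, G = fun x => H (x + θ) := ⟨_, rfl⟩
    have g6 : ContDiff ℝ 6 G := by
      rw [hG]
      exact h6.comp (by fun_prop)
    have g1 : deriv G = fun x => deriv H (x + θ) := by
      rw [hG]
      exact dshift θ
    have g2 : deriv (deriv G) = fun x => deriv (deriv H) (x + θ) := by
      rw [g1]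
      exact dshift θ
    have gr : rho G = fun x => r (x + θ) := by
      funext x
      unfold rho
      rw [g2, hG, hr]
      rfl
    have gr1 : deriv (rho G) = fun x => deriv r (x + θ) := by
      rw [gr]
      exact dshift θ
    have gr2 : deriv (deriv (rho G)) = fun x => deriv (deriv r) (x + θ) := by
      rw [gr1]
      exact dshift θ
    have gr3 : deriv (deriv (deriv (rho G))) = fun x => deriv (deriv (deriv r)) (x + θ) := by
      rw [gr2]
      exact dshift θ
    have gr4 : deriv (deriv (deriv (deriv (rho G)))) = fun x => deriv (deriv (deriv (deriv r))) (x + θ) := by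
      rw [gr3]
      exact dshift θ
    have e1 : (fun t => ga H α (t + θ)) = gam G α 0 := by
      funext t
      unfold gam ga
      rw [g1, hG]
      simp only
      have e2 : t + θ + α = t + α + θ := by ring
      rw [e2]
      ring
    rw [slice78 (hgap α) θ, e1]
    exact core78 g6 hM' (by rw [gr]; exact fun x => (hM0 _).trans (by linarith))
      (by rw [gr1]; exact fun x => (hM1 _).trans (by linarith)) (by rw [gr2]; exact fun x => (hM2 _).trans (by linarith))
      (by rw [gr3]; exact fun x => (hM3 _).trans (by linarith)) (by rw [gr4]; exact fun x => (hM4 _).trans (by linarith))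
      (by rw [gr2, gr1, gr]; exact fun x => hqr _) hα1 hα2
  refine ⟨⟨⟨f1.cont, f1.hom, fun θ => cv_mono78 (f1.cv θ) (min_le_left _ _) hBB⟩, fun θ => (hsl θ).1,
    fun θ τ hτ => ((hsl θ).2.1 τ hτ).trans (by linarith), fun θ => (min_le_right _ _).trans ?_⟩, ?_, ?_, ?_⟩
  · obtain ⟨a, b, d, ea, eb, ed, hab, hlo⟩ := (hsl θ).2.2
    have hpos : 0 < a := by
      rw [← ea]
      exact hc₁.trans_le ((f1.cv θ).lo 0 (by simp))
    have e1 : ka (hom (ga H α)) θ = (9 * a ^ 2 + 4 * b ^ 2 - 3 * a * d) / (36 * a ^ 2) := by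
      unfold ka be p2 p3 p4
      rw [ea, eb, ed]
      field_simp
      ring
    rw [e1, div_le_div_iff₀ (by positivity) (by positivity)]
    have h1 : a ^ 2 ≤ (2 * M) ^ 2 := by
      rw [← sq_abs]
      exact pow_le_pow_left₀ (abs_nonneg _) hab 2
    have h2 := mul_le_mul_of_nonneg_right hlo (by positivity : (0 : ℝ) ≤ 288 * M ^ 2)
    have h3 := mul_le_mul_of_nonneg_left h1 hq.le
    nlinarith
  · exact ⟨f2.hom, fun v w h7 h8 h9 h10 => (f2.lip v w h7 h8 h9 h10).trans (mul_le_mul_of_nonneg_right hBB (by positivity))⟩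
  · exact ⟨f3.hom, fun v => (f3.bdd v).trans hBB, fun v w h7 h8 => (f3.lip v w h7 h8).trans (mul_le_mul_of_nonneg_right hBB (by positivity))⟩
  · exact ⟨f4.hom, fun v => (f4.bdd v).trans hBB, fun v w h7 h8 => (f4.lip v w h7 h8).trans (mul_le_mul_of_nonneg_right hBB (by positivity))⟩

end Pool.Agent.Helper3.AC
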